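import Mathlib

/-!
# Counting proper colourings of induced subgraphs by colour classes

`N G q W` is the number of proper colourings of `G[W]` with `q` colours, defined by removing the class
of the last colour.  `Q G m W z y` is the sum of `y ^ (|A| - 1)` over the colourings with `m + 1` colours
in which `z` has the last colour and `A` is its class; `P G m W y` is the sum of `y ^ |A|` over all
colourings with `m + 1` colours, `A` being the class of the last colour.
-/

set_option autoImplicit false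

namespace Pool.Agent.J4.H34.CQ

open Finset Classical

variable {V : Type*}

/-- independent finsets -/
def Ind (G : SimpleGraph V) (A : Finset V) : Prop := ∀ x ∈ A, ∀ y ∈ A, ¬ G.Adj x y

/-- independent subsets of `W` -/
noncomputable def ind (G : SimpleGraph V) (W : Finset V) : Finset (Finset V) :=
  W.powerset.filter (Ind G)

lemma mem_ind {G : SimpleGraph V} {W A : Finset V} : A ∈ ind G W ↔ A ⊆ W ∧ Ind G A := by
  simp [ind]

lemma Ind.mono {G : SimpleGraph V} {A B : Finset V} (h : Ind G B) (hAB : A ⊆ B) : Ind G A :=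
  fun x hx y hy => h x (hAB hx) y (hAB hy)

/-- the number of proper colourings of `G[W]` with `q` colours -/
noncomputable def N (G : SimpleGraph V) : ℕ → Finset V → ℝ
  | 0, W => if W = ∅ then 1 else 0
  | (q + 1), W => ∑ A ∈ ind G W, N G q (W \ A)

lemma N_zero (G : SimpleGraph V) (W : Finset V) : N G 0 W = if W = ∅ then 1 else 0 := rfl

lemma N_succ (G : SimpleGraph V) (q : ℕ) (W : Finset V) :
    N G (q + 1) W = ∑ A ∈ ind G W, N G q (W \ A) := rfl

lemma N_nonneg (G : SimpleGraph V) (q : ℕ) (W : Finset V) : 0 ≤ N G q W := by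
  induction q generalizing W with
  | zero => rw [N_zero]; split_ifs <;> norm_num
  | succ q ih => rw [N_succ]; exact Finset.sum_nonneg fun A _ => ih _

lemma empty_mem_ind (G : SimpleGraph V) (W : Finset V) : ∅ ∈ ind G W := by
  rw [mem_ind]; exact ⟨by simp, by intro x hx; simp at hx⟩

lemma singleton_mem_ind (G : SimpleGraph V) {W : Finset V} {x : V} (hx : x ∈ W) :
    {x} ∈ ind G W := by
  rw [mem_ind]
  refine ⟨by simpa using hx, ?_⟩
  intro a ha b hb
  simp only [Finset.mem_singleton] at ha hb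
  rw [ha, hb]
  exact SimpleGraph.irrefl G

lemma N_pos (G : SimpleGraph V) {q : ℕ} {W : Finset V} (h : W.card ≤ q) : 0 < N G q W := by
  induction q generalizing W with
  | zero =>
    have : W = ∅ := by simpa using h
    rw [N_zero, if_pos this]; norm_num
  | succ q ih =>
    rw [N_succ]
    rcases W.eq_empty_or_nonempty with rfl | ⟨x, hx⟩
    · refine lt_of_lt_of_le ?_ (Finset.single_le_sum (f := fun A => N G q (∅ \ A))
        (fun A _ => N_nonneg G q _) (empty_mem_ind G ∅))
      simpa using ih (W := ∅) (by simp)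
    · refine lt_of_lt_of_le ?_ (Finset.single_le_sum (f := fun A => N G q (W \ A))
        (fun A _ => N_nonneg G q _) (singleton_mem_ind G hx))
      apply ih
      rw [Finset.card_sdiff_of_subset (by simpa using hx)]
      simp only [Finset.card_singleton]
      omega

lemma sum_swap (G : SimpleGraph V) (W : Finset V) (p r : Finset V → Prop)
    [DecidablePred p] [DecidablePred r] (F : Finset V → Finset V → ℝ) :
    ∑ A ∈ (ind G W).filter p, ∑ B ∈ (ind G (W \ A)).filter r, F A B
      = ∑ B ∈ (ind G W).filter r, ∑ A ∈ (ind G (W \ B)).filter p, F A B := by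
  apply Finset.sum_comm'
  intro A B
  simp only [Finset.mem_filter, mem_ind, Finset.subset_sdiff]
  constructor
  · rintro ⟨⟨⟨h1, h2⟩, hp⟩, ⟨⟨h3, h4⟩, h5⟩, hr⟩
    exact ⟨⟨⟨⟨h1, h4.symm⟩, h2⟩, hp⟩, ⟨h3, h5⟩, hr⟩
  · rintro ⟨⟨⟨⟨h1, h2⟩, h3⟩, hp⟩, ⟨h4, h5⟩, hr⟩
    exact ⟨⟨⟨h1, h3⟩, hp⟩, ⟨⟨h4, h2.symm⟩, h5⟩, hr⟩

/-- the colour of `z` may be taken to be the last one -/
lemma N_mem (G : SimpleGraph V) (m : ℕ) {W : Finset V} {z : V} (hz : z ∈ W) :
    N G (m + 1) W = (m + 1) * ∑ A ∈ (ind G W).filter (fun A => z ∈ A), N G m (W \ A) := by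
  induction m generalizing W with
  | zero =>
    rw [N_succ, ← Finset.sum_filter_add_sum_filter_not (ind G W) (fun A => z ∈ A)]
    have h : ∑ A ∈ (ind G W).filter (fun A => ¬ z ∈ A), N G 0 (W \ A) = 0 := by
      apply Finset.sum_eq_zero
      intro A hA
      rw [Finset.mem_filter] at hA
      rw [N_zero, if_neg]
      intro h
      have : z ∈ W \ A := Finset.mem_sdiff.2 ⟨hz, hA.2⟩
      rw [h] at this
      simp at this
    rw [h]
    simp
  | succ m ih =>
    rw [N_succ, ← Finset.sum_filter_add_sum_filter_not (ind G W) (fun A => z ∈ A)]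
    have h : ∑ A ∈ (ind G W).filter (fun A => ¬ z ∈ A), N G (m + 1) (W \ A)
        = (m + 1) * ∑ A ∈ (ind G W).filter (fun A => z ∈ A), N G (m + 1) (W \ A) := by
      have h1 : ∀ A ∈ (ind G W).filter (fun A => ¬ z ∈ A), N G (m + 1) (W \ A)
          = (m + 1) * ∑ B ∈ (ind G (W \ A)).filter (fun B => z ∈ B), N G m ((W \ A) \ B) := by
        intro A hA
        rw [Finset.mem_filter] at hA
        exact ih (Finset.mem_sdiff.2 ⟨hz, hA.2⟩)
      rw [Finset.sum_congr rfl h1, ← Finset.mul_sum, sum_swap]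
      congr 1
      apply Finset.sum_congr rfl
      intro B hB
      rw [Finset.mem_filter] at hB
      rw [N_succ]
      have h2 : (ind G (W \ B)).filter (fun A => ¬ z ∈ A) = ind G (W \ B) := by
        rw [Finset.filter_eq_self]
        intro A hA hzA
        rw [mem_ind] at hA
        exact (Finset.mem_sdiff.1 (hA.1 hzA)).2 hB.2
      rw [h2]
      exact Finset.sum_congr rfl fun A _ => by rw [sdiff_right_comm]
    rw [h]
    push_cast
    ring

/-- sum over the independent sets, according to their intersection with a clique -/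
lemma sum_clique (G : SimpleGraph V) {W K : Finset V} (hK : G.IsClique (K : Set V))
    (f : Finset V → ℝ) :
    ∑ B ∈ ind G W, f B = ∑ B ∈ (ind G W).filter (fun B => Disjoint B K), f B
      + ∑ z ∈ K, ∑ B ∈ (ind G W).filter (fun B => z ∈ B), f B := by
  rw [← Finset.sum_filter_add_sum_filter_not (ind G W) (fun B => Disjoint B K)]
  congr 1
  have h1 : ∀ z ∈ K, ∑ B ∈ (ind G W).filter (fun B => z ∈ B), f B
      = ∑ B ∈ (ind G W).filter (fun B => ¬ Disjoint B K), if z ∈ B then f B else 0 := by
    intro z hz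
    rw [← Finset.sum_filter, Finset.filter_filter]
    apply Finset.sum_congr _ (fun _ _ => rfl)
    ext B
    simp only [Finset.mem_filter]
    constructor
    · rintro ⟨h1, h2⟩
      exact ⟨h1, fun h => (Finset.disjoint_left.1 h h2 hz), h2⟩
    · rintro ⟨h1, _, h2⟩
      exact ⟨h1, h2⟩
  rw [Finset.sum_congr rfl h1, Finset.sum_comm]
  apply Finset.sum_congr rfl
  intro B hB
  rw [Finset.mem_filter, mem_ind] at hB
  obtain ⟨⟨_, hI⟩, hd⟩ := hB
  rw [Finset.not_disjoint_iff] at hd
  obtain ⟨z, hzB, hzK⟩ := hd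
  rw [Finset.sum_eq_single_of_mem z hzK]
  · rw [if_pos hzB]
  · intro w hw hwz
    rw [if_neg]
    intro hwB
    exact hI w hwB z hzB (hK hw hzK hwz)

/-- `y ^ (|A| - 1)` summed over the classes `A ∋ z` -/
noncomputable def Q (G : SimpleGraph V) (m : ℕ) (W : Finset V) (z : V) (y : ℝ) : ℝ :=
  ∑ A ∈ (ind G W).filter (fun A => z ∈ A), y ^ (A.card - 1) * N G m (W \ A)

/-- `y ^ |A|` summed over the classes `A` of the last colour -/
noncomputable def P (G : SimpleGraph V) (m : ℕ) (W : Finset V) (y : ℝ) : ℝ :=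
  ∑ A ∈ ind G W, y ^ A.card * N G m (W \ A)

/-- the same for classes which avoid `K` -/
noncomputable def PU (G : SimpleGraph V) (m : ℕ) (W K : Finset V) (y : ℝ) : ℝ :=
  ∑ A ∈ (ind G W).filter (fun A => Disjoint A K), y ^ A.card * N G m (W \ A)

lemma P_one (G : SimpleGraph V) (m : ℕ) (W : Finset V) : P G m W 1 = N G (m + 1) W := by
  simp [P, N_succ]

lemma N_eq_Q (G : SimpleGraph V) (m : ℕ) {W : Finset V} {z : V} (hz : z ∈ W) :
    N G (m + 1) W = (m + 1) * Q G m W z 1 := by
  rw [N_mem G m hz]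
  simp [Q]

lemma P_clique (G : SimpleGraph V) (m : ℕ) {W K : Finset V} (hK : G.IsClique (K : Set V))
    (y : ℝ) : P G m W y = PU G m W K y + y * ∑ z ∈ K, Q G m W z y := by
  rw [P, sum_clique G hK, PU, Finset.mul_sum]
  congr 1
  apply Finset.sum_congr rfl
  intro z _
  rw [Q, Finset.mul_sum]
  apply Finset.sum_congr rfl
  intro A hA
  rw [Finset.mem_filter] at hA
  have : A.card = (A.card - 1) + 1 := (Nat.sub_add_cancel (Finset.card_pos.2 ⟨z, hA.2⟩)).symm
  conv_lhs => rw [this, pow_succ]
  ring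

/-- the number of pairs of a colouring and a colour not used on the clique `K` -/
lemma sum_avoid (G : SimpleGraph V) (m : ℕ) {W K : Finset V} (hK : G.IsClique (K : Set V))
    (hKW : K ⊆ W) :
    (m + 1) * ∑ B ∈ (ind G W).filter (fun B => Disjoint B K), N G m (W \ B)
      = (m + 1 - K.card) * N G (m + 1) W := by
  have h1 := P_clique G m (W := W) hK 1
  rw [P_one, PU] at h1
  simp only [one_pow, one_mul] at h1
  have h2 : ∀ z ∈ K, (m + 1 : ℝ) * Q G m W z 1 = N G (m + 1) W :=
    fun z hz => (N_eq_Q G m (hKW hz)).symm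
  have h3 : (m + 1 : ℝ) * ∑ z ∈ K, Q G m W z 1 = K.card * N G (m + 1) W := by
    rw [Finset.mul_sum, Finset.sum_congr rfl h2]
    simp
  have h4 : (m + 1 : ℝ) * ∑ B ∈ (ind G W).filter (fun B => Disjoint B K), N G m (W \ B)
      = (m + 1 : ℝ) * N G (m + 1) W - (m + 1 : ℝ) * ∑ z ∈ K, Q G m W z 1 := by
    rw [h1]; ring
  rw [h4, h3]
  ring

end Pool.Agent.J4.H34.CQ
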