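import Pool.Agent.J4.H34.CQ.Swap

/-!
# The generating function of the size of a colour class

For a clique `K` with `k` vertices in `W`, `|W| ≤ m + 1`, and `0 ≤ ε` with `ε (m - 1) ≤ 1` the mean of
`(1 + ε) ^ |A|` over the classes `A` of the colourings with `q = m + 1` colours is at most
`(1 + k ε / q) (1 + ε / q) ^ (|W| - k)`, which is the value for `K` together with isolated vertices.
-/

set_option autoImplicit false

namespace Pool.Agent.J4.H34.CQ

open Finset Classical

variable {V : Type*}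

lemma one_add_pow_le (x : ℝ) (hx : 0 ≤ x) (k : ℕ) (h : ((k : ℝ) - 1) * x ≤ 1) :
    (1 + x) ^ k ≤ 1 + k * x + k * (k - 1) * x ^ 2 := by
  induction k with
  | zero => simp
  | succ k ih =>
    push_cast at h ⊢
    have h1 : (k : ℝ) * x ≤ 1 := by linarith
    have h2 : ((k : ℝ) - 1) * x ≤ 1 := by nlinarith
    have h3 := ih h2
    rw [pow_succ]
    have h4 : (1 + x) ^ k * (1 + x) ≤ (1 + k * x + k * (k - 1) * x ^ 2) * (1 + x) :=
      mul_le_mul_of_nonneg_right h3 (by linarith)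
    refine h4.trans ?_
    have h5 : (k : ℝ) * x ^ 2 * (((k : ℝ) - 1) * x) ≤ (k : ℝ) * x ^ 2 * 1 :=
      mul_le_mul_of_nonneg_left h2 (by positivity)
    nlinarith

lemma pow_le_one_add {ε : ℝ} (hε : 0 ≤ ε) {k m : ℕ} (hk : k ≤ m) (h : ε * ((m : ℝ) - 1) ≤ 1) :
    (1 + ε / (m + 1)) ^ k ≤ 1 + ε := by
  have hm : (0 : ℝ) < m + 1 := by positivity
  have hx : 0 ≤ ε / (m + 1) := by positivity
  have h0 : ε = ε / (m + 1) * (m + 1) := by field_simp
  set x := ε / (m + 1) with hxdef
  have h1 : (1 + x) ^ k ≤ (1 + x) ^ m := pow_le_pow_right₀ (by linarith) hk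
  rcases Nat.eq_zero_or_pos m with rfl | hmpos
  · simp only [pow_zero] at h1
    linarith
  have hm1 : (1 : ℝ) ≤ m := by exact_mod_cast hmpos
  have h2 : x * (m + 1) * ((m : ℝ) - 1) ≤ 1 := by rw [← h0]; exact h
  have hxm : 0 ≤ x * ((m : ℝ) - 1) := mul_nonneg hx (by linarith)
  have h3 : ((m : ℝ) - 1) * x ≤ 1 := by nlinarith
  have h4 := one_add_pow_le x hx m h3
  have h5 : (m : ℝ) * (m - 1) * x ≤ 1 := by nlinarith
  have h6 : (m : ℝ) * (m - 1) * x ^ 2 ≤ x := by
    have := mul_le_mul_of_nonneg_right h5 hx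
    nlinarith
  rw [h0]
  nlinarith

lemma hasDerivAt_P (G : SimpleGraph V) (m : ℕ) (W : Finset V) (y : ℝ) :
    HasDerivAt (fun y => P G m W y) (∑ v ∈ W, Q G m W v y) y := by
  have h1 : HasDerivAt (fun y => P G m W y)
      (∑ A ∈ ind G W, ((A.card : ℝ) * y ^ (A.card - 1)) * N G m (W \ A)) y := by
    unfold P
    exact HasDerivAt.fun_sum fun A _ => (hasDerivAt_pow A.card y).mul_const _
  convert h1 using 1
  unfold Q
  rw [Finset.sum_comm' (s' := fun A => A) (t' := ind G W)]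
  · apply Finset.sum_congr rfl
    intro A _
    rw [Finset.sum_const, nsmul_eq_mul]
    ring
  · intro v A
    simp only [Finset.mem_filter, mem_ind]
    constructor
    · rintro ⟨h1, h2, h3⟩; exact ⟨h3, h2⟩
    · rintro ⟨h1, h2, h3⟩; exact ⟨h2 h1, ⟨h2, h3⟩, h1⟩

/-- the bound for all numbers of colours, all cliques, all `ε` -/
def Bnd (G : SimpleGraph V) (W : Finset V) : Prop :=
  ∀ (m : ℕ) (K : Finset V) (ε : ℝ), W.card ≤ m + 1 → K ⊆ W → G.IsClique (K : Set V) → 0 ≤ ε →
    ε * ((m : ℝ) - 1) ≤ 1 →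
    P G m W (1 + ε) ≤ (1 + K.card * ε / (m + 1)) * (1 + ε / (m + 1)) ^ (W.card - K.card) *
      N G (m + 1) W

lemma Bnd.le {G : SimpleGraph V} {W : Finset V} (h : Bnd G W) {m : ℕ} {ε : ℝ} (hW : W.card ≤ m)
    (hε : 0 ≤ ε) (hεm : ε * ((m : ℝ) - 1) ≤ 1) :
    P G m W (1 + ε) ≤ (1 + ε) * N G (m + 1) W := by
  have h1 := h m ∅ ε (by omega) (by simp) (by simp) hε hεm
  simp only [Finset.card_empty, Nat.cast_zero, zero_mul, zero_div, add_zero, one_mul,
    Nat.sub_zero] at h1
  exact h1.trans (mul_le_mul_of_nonneg_right (pow_le_one_add hε hW hεm) (N_nonneg _ _ _))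

lemma Q_nonneg (G : SimpleGraph V) (m : ℕ) (W : Finset V) (z : V) {y : ℝ} (hy : 0 ≤ y) :
    0 ≤ Q G m W z y :=
  Finset.sum_nonneg fun _ _ => mul_nonneg (pow_nonneg hy _) (N_nonneg _ _ _)

/-- a vertex of the clique, if the bound holds for smaller sets -/
lemma clique_vertex {G : SimpleGraph V} {W : Finset V} (ih : ∀ W' ⊂ W, Bnd G W') {m : ℕ}
    {K : Finset V} {ε : ℝ} (hW : W.card ≤ m + 1) (hKW : K ⊆ W) (hK : G.IsClique (K : Set V))
    (hε : 0 ≤ ε) (hεm : ε * ((m : ℝ) - 1) ≤ 1) {z : V} (hz : z ∈ K) :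
    ((m : ℝ) + 1 - K.card) * Q G m W z (1 + ε) ≤ PU G m W K (1 + ε) := by
  have hPU : 0 ≤ PU G m W K (1 + ε) :=
    Finset.sum_nonneg fun _ _ => mul_nonneg (pow_nonneg (by linarith) _) (N_nonneg _ _ _)
  rcases m with _ | m
  · have h1 : K.card ≤ 1 := (Finset.card_le_card hKW).trans (by simpa using hW)
    have h2 : 1 ≤ K.card := Finset.card_pos.2 ⟨z, hz⟩
    have h3 : K.card = 1 := le_antisymm h1 h2
    rw [h3]
    simpa using hPU
  · have h1 := swap_le G m hK hKW hz (y := 1 + ε) (by linarith) ?_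
    · push_cast
      have h2 : ((m : ℝ) + 1 + 1 - K.card) = (m : ℝ) + 2 - K.card := by ring
      rw [h2]
      exact h1
    · intro B hB hBK hnb
      rw [mem_ind] at hB
      have hzB : z ∉ B := fun h => Finset.disjoint_left.1 hBK h hz
      have hzW : z ∈ W \ B := Finset.mem_sdiff.2 ⟨hKW hz, hzB⟩
      apply class_le G m hzW (by linarith)
      have hsub : (W \ B).erase z ⊂ W := by
        refine Finset.ssubset_of_subset_of_ssubset (Finset.erase_subset_erase z
          (Finset.sdiff_subset)) ?_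
        exact Finset.erase_ssubset (hKW hz)
      have hcard : ((W \ B).erase z).card ≤ m := by
        rw [Finset.card_erase_of_mem hzW, Finset.card_sdiff_of_subset hB.1]
        obtain ⟨x, hx, _⟩ := hnb
        have : 1 ≤ B.card := Finset.card_pos.2 ⟨x, hx⟩
        omega
      apply (ih _ hsub).le hcard hε
      push_cast at hεm
      nlinarith

/-- all the vertices of the clique -/
lemma clique_sum {G : SimpleGraph V} {W : Finset V} (ih : ∀ W' ⊂ W, Bnd G W') {m : ℕ}
    {K : Finset V} {ε : ℝ} (hW : W.card ≤ m + 1) (hKW : K ⊆ W) (hK : G.IsClique (K : Set V))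
    (hε : 0 ≤ ε) (hεm : ε * ((m : ℝ) - 1) ≤ 1) :
    ((m : ℝ) + 1 + K.card * ε) * ∑ z ∈ K, Q G m W z (1 + ε) ≤ K.card * P G m W (1 + ε) := by
  have h1 : ∑ z ∈ K, ((m : ℝ) + 1 - K.card) * Q G m W z (1 + ε)
      ≤ ∑ _z ∈ K, PU G m W K (1 + ε) :=
    Finset.sum_le_sum fun z hz => clique_vertex ih hW hKW hK hε hεm hz
  rw [← Finset.mul_sum, Finset.sum_const, nsmul_eq_mul] at h1
  rw [P_clique G m hK]
  nlinarith

theorem bnd (G : SimpleGraph V) (W : Finset V) : Bnd G W := by
  induction W using Finset.strongInduction with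
  | H W ih =>
  intro m K ε₀ hW hKW hK hε₀ hεm₀
  have hq : (0 : ℝ) < m + 1 := by positivity
  set q : ℝ := (m : ℝ) + 1 with hqdef
  set k : ℝ := (K.card : ℝ) with hkdef
  have hk : 0 ≤ k := by positivity
  set l : ℕ := W.card - K.card with hldef
  have hN : 0 < N G (m + 1) W := N_pos G hW
  set NW := N G (m + 1) W with hNW
  -- the function which is shown to be decreasing
  set h : ℝ → ℝ := fun ε => P G m W (1 + ε) / (q + k * ε) - NW / q * (1 + ε / q) ^ l with hh
  have hpos : ∀ ε, 0 ≤ ε → 0 < q + k * ε := fun ε hε => by positivity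
  have hder : ∀ ε, 0 ≤ ε → HasDerivAt h
      (((∑ v ∈ W, Q G m W v (1 + ε)) * (q + k * ε) - P G m W (1 + ε) * k) / (q + k * ε) ^ 2
        - NW / q * (l * (1 + ε / q) ^ (l - 1) * (1 / q))) ε := by
    intro ε hε
    have h1 : HasDerivAt (fun ε : ℝ => P G m W (1 + ε)) (∑ v ∈ W, Q G m W v (1 + ε)) ε := by
      have := (hasDerivAt_P G m W (1 + ε)).comp_const_add 1 ε
      exact this
    have h2 : HasDerivAt (fun ε : ℝ => q + k * ε) k ε := by
      have := ((hasDerivAt_id ε).const_mul k).const_add q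
      simpa using this
    have h3 : HasDerivAt (fun ε : ℝ => 1 + ε / q) (1 / q) ε := by
      have := ((hasDerivAt_id ε).div_const q).const_add 1
      simpa using this
    have h4 := h3.fun_pow l
    have h5 := h4.const_mul (NW / q)
    exact (h1.fun_div h2 (hpos ε hε).ne').fun_sub h5
  have hle : ∀ ε, 0 ≤ ε → ε ≤ ε₀ →
      (((∑ v ∈ W, Q G m W v (1 + ε)) * (q + k * ε) - P G m W (1 + ε) * k) / (q + k * ε) ^ 2
        - NW / q * (l * (1 + ε / q) ^ (l - 1) * (1 / q))) ≤ 0 := by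
    intro ε hε hεε
    have hεm : ε * ((m : ℝ) - 1) ≤ 1 := by
      rcases le_or_gt 0 ((m : ℝ) - 1) with h0 | h0
      · exact (mul_le_mul_of_nonneg_right hεε h0).trans hεm₀
      · nlinarith
    have hS := clique_sum ih hW hKW hK hε hεm
    have hτ : 0 < 1 + ε / q := by positivity
    have hrest : ∀ v ∈ W \ K, Q G m W v (1 + ε)
        ≤ (1 + k * ε / q) * (1 + ε / q) ^ (l - 1) * NW / q := by
      intro v hv
      rw [Finset.mem_sdiff] at hv
      have hlt : W.erase v ⊂ W := Finset.erase_ssubset hv.1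
      have hcard : (W.erase v).card = W.card - 1 := Finset.card_erase_of_mem hv.1
      have hc1 : (W.erase v).card ≤ m := by omega
      have hav := class_avg G m hv.1 (y := 1 + ε) (by linarith) ((ih _ hlt).le hc1 hε hεm)
      have hKv : K ⊆ W.erase v := by
        intro x hx
        rw [Finset.mem_erase]
        exact ⟨fun h => hv.2 (h ▸ hx), hKW hx⟩
      have hb := ih _ hlt m K ε (by omega) hKv hK hε hεm
      have hl : (W.erase v).card - K.card = l - 1 := by rw [hcard]; omega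
      rw [hl] at hb
      have hN' : 0 < N G (m + 1) (W.erase v) := N_pos G (by omega)
      have h1 : q * Q G m W v (1 + ε) * N G (m + 1) (W.erase v)
          ≤ ((1 + k * ε / q) * (1 + ε / q) ^ (l - 1) * NW) * N G (m + 1) (W.erase v) := by
        refine hav.trans ?_
        calc P G m (W.erase v) (1 + ε) * NW
            ≤ ((1 + k * ε / q) * (1 + ε / q) ^ (l - 1) * N G (m + 1) (W.erase v)) * NW :=
              mul_le_mul_of_nonneg_right hb hN.le
          _ = _ := by ring
      have h2 := le_of_mul_le_mul_right h1 hN'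
      rw [le_div_iff₀ hq]
      linarith
    have hsum : ∑ v ∈ W \ K, Q G m W v (1 + ε)
        ≤ l * ((1 + k * ε / q) * (1 + ε / q) ^ (l - 1) * NW / q) := by
      refine (Finset.sum_le_card_nsmul _ _ _ hrest).trans ?_
      rw [nsmul_eq_mul, Finset.card_sdiff_of_subset hKW]
    have hsplit : ∑ v ∈ W, Q G m W v (1 + ε)
        = ∑ v ∈ W \ K, Q G m W v (1 + ε) + ∑ v ∈ K, Q G m W v (1 + ε) :=
      (Finset.sum_sdiff hKW).symm
    have hp := hpos ε hε
    have hkey : (∑ v ∈ W, Q G m W v (1 + ε)) * (q + k * ε) - P G m W (1 + ε) * k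
        ≤ (q + k * ε) ^ 2 * (NW / q * (l * (1 + ε / q) ^ (l - 1) * (1 / q))) := by
      rw [hsplit]
      have h1 : (∑ v ∈ W \ K, Q G m W v (1 + ε)) * (q + k * ε)
          ≤ l * ((1 + k * ε / q) * (1 + ε / q) ^ (l - 1) * NW / q) * (q + k * ε) :=
        mul_le_mul_of_nonneg_right hsum hp.le
      have h2 : l * ((1 + k * ε / q) * (1 + ε / q) ^ (l - 1) * NW / q) * (q + k * ε)
          = (q + k * ε) ^ 2 * (NW / q * (l * (1 + ε / q) ^ (l - 1) * (1 / q))) := by
        field_simp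
      nlinarith
    have h3 : ((∑ v ∈ W, Q G m W v (1 + ε)) * (q + k * ε) - P G m W (1 + ε) * k)
        / (q + k * ε) ^ 2 ≤ NW / q * (l * (1 + ε / q) ^ (l - 1) * (1 / q)) := by
      rw [div_le_iff₀ (by positivity)]
      linarith
    linarith
  have hanti : AntitoneOn h (Set.Icc 0 ε₀) := by
    apply antitoneOn_of_deriv_nonpos (convex_Icc 0 ε₀)
    · intro ε hε
      exact (hder ε hε.1).continuousAt.continuousWithinAt
    · intro ε hε
      rw [interior_Icc] at hε
      exact (hder ε hε.1.le).differentiableAt.differentiableWithinAt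
    · intro ε hε
      rw [interior_Icc] at hε
      rw [(hder ε hε.1.le).deriv]
      exact hle ε hε.1.le hε.2.le
  have hfin := hanti (Set.left_mem_Icc.2 hε₀) (Set.right_mem_Icc.2 hε₀) hε₀
  have h0 : h 0 = 0 := by
    simp only [hh, add_zero, mul_zero, zero_div, one_pow, mul_one]
    rw [P_one]
    exact sub_self _
  rw [h0] at hfin
  simp only [hh] at hfin
  have hp := hpos ε₀ hε₀
  have h1 : P G m W (1 + ε₀) / (q + k * ε₀) ≤ NW / q * (1 + ε₀ / q) ^ l := by linarith
  rw [div_le_iff₀ hp] at h1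
  refine h1.trans (le_of_eq ?_)
  field_simp

/-- the mean of `(1 + ε) ^ (|A| - 1)` over the classes of the vertices of the clique -/
theorem clique_bound (G : SimpleGraph V) {W : Finset V} {m : ℕ}
    {K : Finset V} {ε : ℝ} (hW : W.card ≤ m + 1) (hKW : K ⊆ W) (hK : G.IsClique (K : Set V))
    (hε : 0 ≤ ε) (hεm : ε * ((m : ℝ) - 1) ≤ 1) :
    (m + 1) * ∑ z ∈ K, Q G m W z (1 + ε)
      ≤ K.card * (1 + ε / (m + 1)) ^ (W.card - K.card) * N G (m + 1) W := by
  have h1 := clique_sum (fun W' _ => bnd G W') hW hKW hK hε hεm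
  have h2 := bnd G W m K ε hW hKW hK hε hεm
  have hq : (0 : ℝ) < m + 1 := by positivity
  have hp : 0 < (m : ℝ) + 1 + K.card * ε := by positivity
  have h3 : ((m : ℝ) + 1 + K.card * ε) * ((m + 1) * ∑ z ∈ K, Q G m W z (1 + ε))
      ≤ ((m : ℝ) + 1 + K.card * ε) *
        (K.card * (1 + ε / (m + 1)) ^ (W.card - K.card) * N G (m + 1) W) := by
    calc ((m : ℝ) + 1 + K.card * ε) * ((m + 1) * ∑ z ∈ K, Q G m W z (1 + ε))
        = (m + 1) * (((m : ℝ) + 1 + K.card * ε) * ∑ z ∈ K, Q G m W z (1 + ε)) := by ring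
      _ ≤ (m + 1) * (K.card * P G m W (1 + ε)) := mul_le_mul_of_nonneg_left h1 hq.le
      _ ≤ (m + 1) * (K.card * ((1 + K.card * ε / (m + 1)) *
            (1 + ε / (m + 1)) ^ (W.card - K.card) * N G (m + 1) W)) := by
          apply mul_le_mul_of_nonneg_left _ hq.le
          exact mul_le_mul_of_nonneg_left h2 (by positivity)
      _ = _ := by field_simp
  exact le_of_mul_le_mul_left h3 hp

end Pool.Agent.J4.H34.CQ
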