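import Pool.Agent.J4.H34.CQ.Basic

/-!
# Deleting a vertex

The class of a vertex `z` in a random colouring of `G[W]` is the class of a random available colour in a
colouring of `G[W - z]`; the colours which are not available have at least one vertex.
-/

set_option autoImplicit false

namespace Pool.Agent.J4.H34.CQ

open Finset Classical

variable {V : Type*}

/-- `B` contains a neighbour of `z` -/
def nb (G : SimpleGraph V) (z : V) (B : Finset V) : Prop := ∃ x ∈ B, G.Adj z x

lemma Q_erase (G : SimpleGraph V) (m : ℕ) {W : Finset V} {z : V} (hz : z ∈ W) (y : ℝ) :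
    Q G m W z y = ∑ B ∈ (ind G (W.erase z)).filter (fun B => ¬ nb G z B),
      y ^ B.card * N G m ((W.erase z) \ B) := by
  rw [Q]
  refine Finset.sum_bij' (fun A _ => A.erase z) (fun B _ => insert z B) ?_ ?_ ?_ ?_ ?_
  · intro A hA
    rw [Finset.mem_filter, mem_ind] at hA
    obtain ⟨⟨h1, h2⟩, h3⟩ := hA
    rw [Finset.mem_filter, mem_ind]
    refine ⟨⟨Finset.erase_subset_erase z h1, h2.mono (Finset.erase_subset z A)⟩, ?_⟩
    rintro ⟨x, hx, hzx⟩
    exact h2 z h3 x (Finset.mem_of_mem_erase hx) hzx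
  · intro B hB
    rw [Finset.mem_filter, mem_ind] at hB
    obtain ⟨⟨h1, h2⟩, h3⟩ := hB
    rw [Finset.mem_filter, mem_ind]
    refine ⟨⟨?_, ?_⟩, Finset.mem_insert_self z B⟩
    · intro x hx
      rw [Finset.mem_insert] at hx
      rcases hx with rfl | hx
      · exact hz
      · exact Finset.mem_of_mem_erase (h1 hx)
    · intro a ha b hb
      rw [Finset.mem_insert] at ha hb
      rcases ha with rfl | ha
      · rcases hb with rfl | hb
        · exact SimpleGraph.irrefl G
        · exact fun h => h3 ⟨b, hb, h⟩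
      · rcases hb with rfl | hb
        · exact fun h => h3 ⟨a, ha, h.symm⟩
        · exact h2 a ha b hb
  · intro A hA
    rw [Finset.mem_filter] at hA
    exact Finset.insert_erase hA.2
  · intro B hB
    rw [Finset.mem_filter, mem_ind] at hB
    apply Finset.erase_insert
    intro h
    exact (Finset.notMem_erase z W) (hB.1.1 h)
  · intro A hA
    rw [Finset.mem_filter] at hA
    rw [Finset.card_erase_of_mem hA.2]
    congr 2
    ext x
    simp only [Finset.mem_sdiff, Finset.mem_erase]
    constructor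
    · rintro ⟨h1, h2⟩
      exact ⟨⟨fun h => h2 (h ▸ hA.2), h1⟩, fun h => h2 h.2⟩
    · rintro ⟨⟨h1, h2⟩, h3⟩
      exact ⟨h2, fun h => h3 ⟨h1, h⟩⟩

/-- the number of pairs of a colouring of `G[W]` and a class which contains a neighbour of `z` -/
noncomputable def D (G : SimpleGraph V) (m : ℕ) (W : Finset V) (z : V) : ℝ :=
  ∑ B ∈ (ind G W).filter (fun B => nb G z B), N G m (W \ B)

lemma D_nonneg (G : SimpleGraph V) (m : ℕ) (W : Finset V) (z : V) : 0 ≤ D G m W z :=
  Finset.sum_nonneg fun _ _ => N_nonneg _ _ _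

lemma N_eq_D (G : SimpleGraph V) (m : ℕ) {W : Finset V} {z : V} (hz : z ∈ W) :
    N G (m + 1) W = (m + 1) * (N G (m + 1) (W.erase z) - D G m (W.erase z) z) := by
  rw [N_eq_Q G m hz, Q_erase G m hz, N_succ,
    ← Finset.sum_filter_add_sum_filter_not (ind G (W.erase z)) (fun B => nb G z B), D]
  simp

lemma Q_le (G : SimpleGraph V) (m : ℕ) {W : Finset V} {z : V} (hz : z ∈ W) {y : ℝ} (hy : 1 ≤ y) :
    Q G m W z y ≤ P G m (W.erase z) y - y * D G m (W.erase z) z := by
  rw [Q_erase G m hz, P,
    ← Finset.sum_filter_add_sum_filter_not (ind G (W.erase z)) (fun B => nb G z B), D,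
    Finset.mul_sum]
  have h : ∑ B ∈ (ind G (W.erase z)).filter (fun B => nb G z B), y * N G m ((W.erase z) \ B)
      ≤ ∑ B ∈ (ind G (W.erase z)).filter (fun B => nb G z B),
        y ^ B.card * N G m ((W.erase z) \ B) := by
    apply Finset.sum_le_sum
    intro B hB
    rw [Finset.mem_filter] at hB
    obtain ⟨_, x, hx, _⟩ := hB
    apply mul_le_mul_of_nonneg_right _ (N_nonneg _ _ _)
    exact le_self_pow₀ hy (Finset.card_pos.2 ⟨x, hx⟩).ne'
  linarith

/-- the mean of `y ^ (|A| - 1)` for the class `A` of `z` is at most the mean of `y ^ |A|` for the classes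
of the colourings of `G[W - z]` -/
lemma class_avg (G : SimpleGraph V) (m : ℕ) {W : Finset V} {z : V} (hz : z ∈ W) {y : ℝ}
    (hy : 1 ≤ y) (h : P G m (W.erase z) y ≤ y * N G (m + 1) (W.erase z)) :
    (m + 1) * Q G m W z y * N G (m + 1) (W.erase z) ≤ P G m (W.erase z) y * N G (m + 1) W := by
  have h1 := Q_le G m hz hy
  have h2 := N_eq_D G m hz
  have h3 := D_nonneg G m (W.erase z) z
  have h4 := N_nonneg G (m + 1) (W.erase z)
  set M := N G (m + 1) (W.erase z)
  set D' := D G m (W.erase z) z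
  set P' := P G m (W.erase z) y
  rw [h2]
  have hm : (0 : ℝ) ≤ m + 1 := by positivity
  have h5 : Q G m W z y * M ≤ (P' - y * D') * M := mul_le_mul_of_nonneg_right h1 h4
  have h6 : (P' - y * D') * M ≤ P' * (M - D') := by nlinarith
  have h7 : Q G m W z y * M ≤ P' * (M - D') := h5.trans h6
  nlinarith

lemma class_le (G : SimpleGraph V) (m : ℕ) {W : Finset V} {z : V} (hz : z ∈ W) {y : ℝ}
    (hy : 1 ≤ y) (h : P G m (W.erase z) y ≤ y * N G (m + 1) (W.erase z)) :
    (m + 1) * Q G m W z y ≤ y * N G (m + 1) W := by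
  have h1 := Q_le G m hz hy
  rw [N_eq_D G m hz]
  have hm : (0 : ℝ) ≤ m + 1 := by positivity
  nlinarith

end Pool.Agent.J4.H34.CQ
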