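import Pool.Agent.J4.H34.CQ.Ratio

/-!
# `N G q univ` is the number of proper colourings
-/

set_option autoImplicit false

namespace Pool.Agent.J4.H34.CQ

open Finset Classical

variable {V : Type*} [Fintype V]

/-- proper colourings of `G[W]` with the colours `1, …, q`, extended by `0` -/
noncomputable def F (G : SimpleGraph V) (q : ℕ) (W : Finset V) : Finset (V → ℕ) :=
  (Fintype.piFinset (fun x => if x ∈ W then Finset.Icc 1 q else {0})).filter
    (fun f => ∀ x ∈ W, ∀ y ∈ W, G.Adj x y → f x ≠ f y)

lemma mem_F {G : SimpleGraph V} {q : ℕ} {W : Finset V} {f : V → ℕ} :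
    f ∈ F G q W ↔ (∀ x ∈ W, 1 ≤ f x ∧ f x ≤ q) ∧ (∀ x, x ∉ W → f x = 0) ∧
      ∀ x ∈ W, ∀ y ∈ W, G.Adj x y → f x ≠ f y := by
  rw [F, Finset.mem_filter, Fintype.mem_piFinset]
  constructor
  · rintro ⟨h1, h2⟩
    refine ⟨fun x hx => ?_, fun x hx => ?_, h2⟩
    · have := h1 x
      rw [if_pos hx, Finset.mem_Icc] at this
      exact this
    · have := h1 x
      rw [if_neg hx, Finset.mem_singleton] at this
      exact this
  · rintro ⟨h1, h2, h3⟩
    refine ⟨fun x => ?_, h3⟩
    by_cases hx : x ∈ W
    · rw [if_pos hx, Finset.mem_Icc]; exact h1 x hx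
    · rw [if_neg hx, Finset.mem_singleton]; exact h2 x hx

lemma card_fiber (G : SimpleGraph V) (q : ℕ) (W A : Finset V) (hA : A ∈ ind G W) :
    ((F G (q + 1) W).filter (fun f => W.filter (fun x => f x = q + 1) = A)).card
      = (F G q (W \ A)).card := by
  rw [mem_ind] at hA
  obtain ⟨hAW, hAI⟩ := hA
  have hmemA : ∀ f : V → ℕ, W.filter (fun x => f x = q + 1) = A →
      ∀ x, x ∈ A ↔ x ∈ W ∧ f x = q + 1 := by
    intro f hf x
    rw [← hf, Finset.mem_filter]
  refine Finset.card_bij' (fun f _ => fun x => if x ∈ A then 0 else f x)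
    (fun g _ => fun x => if x ∈ A then q + 1 else g x) ?_ ?_ ?_ ?_
  · intro f hf
    rw [Finset.mem_filter, mem_F] at hf
    obtain ⟨⟨h1, h2, h3⟩, h4⟩ := hf
    have h5 := hmemA f h4
    rw [mem_F]
    refine ⟨fun x hx => ?_, fun x hx => ?_, fun x hx y hy hxy => ?_⟩
    · rw [Finset.mem_sdiff] at hx
      simp only [if_neg hx.2]
      have h6 := h1 x hx.1
      have h7 : f x ≠ q + 1 := fun h => hx.2 ((h5 x).2 ⟨hx.1, h⟩)
      omega
    · by_cases hxA : x ∈ A
      · simp [hxA]
      · simp only [if_neg hxA]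
        apply h2
        intro hxW
        exact hx (Finset.mem_sdiff.2 ⟨hxW, hxA⟩)
    · rw [Finset.mem_sdiff] at hx hy
      simp only [if_neg hx.2, if_neg hy.2]
      exact h3 x hx.1 y hy.1 hxy
  · intro g hg
    rw [mem_F] at hg
    obtain ⟨h1, h2, h3⟩ := hg
    rw [Finset.mem_filter, mem_F]
    refine ⟨⟨fun x hx => ?_, fun x hx => ?_, fun x hx y hy hxy => ?_⟩, ?_⟩
    · by_cases hxA : x ∈ A
      · simp [hxA]
      · simp only [if_neg hxA]
        have := h1 x (Finset.mem_sdiff.2 ⟨hx, hxA⟩)
        omega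
    · have hxA : x ∉ A := fun h => hx (hAW h)
      simp only [if_neg hxA]
      exact h2 x fun h => hx (Finset.mem_sdiff.1 h).1
    · by_cases hxA : x ∈ A
      · by_cases hyA : y ∈ A
        · exact absurd hxy (hAI x hxA y hyA)
        · simp only [if_pos hxA, if_neg hyA]
          have := h1 y (Finset.mem_sdiff.2 ⟨hy, hyA⟩)
          omega
      · by_cases hyA : y ∈ A
        · simp only [if_neg hxA, if_pos hyA]
          have := h1 x (Finset.mem_sdiff.2 ⟨hx, hxA⟩)
          omega
        · simp only [if_neg hxA, if_neg hyA]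
          exact h3 x (Finset.mem_sdiff.2 ⟨hx, hxA⟩) y (Finset.mem_sdiff.2 ⟨hy, hyA⟩) hxy
    · ext x
      rw [Finset.mem_filter]
      constructor
      · rintro ⟨hx, hx2⟩
        by_contra hxA
        simp only [if_neg hxA] at hx2
        have := h1 x (Finset.mem_sdiff.2 ⟨hx, hxA⟩)
        omega
      · intro hxA
        exact ⟨hAW hxA, by simp [hxA]⟩
  · intro f hf
    rw [Finset.mem_filter] at hf
    have h5 := hmemA f hf.2
    funext x
    by_cases hxA : x ∈ A
    · simp [hxA, ((h5 x).1 hxA).2]
    · simp [hxA]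
  · intro g hg
    rw [mem_F] at hg
    funext x
    by_cases hxA : x ∈ A
    · simp only [if_pos hxA]
      exact (hg.2.1 x fun h => (Finset.mem_sdiff.1 h).2 hxA).symm
    · simp [hxA]

lemma card_F (G : SimpleGraph V) (q : ℕ) (W : Finset V) : ((F G q W).card : ℝ) = N G q W := by
  induction q generalizing W with
  | zero =>
    rw [N_zero]
    split_ifs with hW
    · have : F G 0 W = {fun _ => 0} := by
        ext f
        rw [mem_F, Finset.mem_singleton, hW]
        constructor
        · rintro ⟨_, h, _⟩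
          funext x
          exact h x (by simp)
        · rintro rfl
          simp
      rw [this]
      simp
    · obtain ⟨x, hx⟩ := Finset.nonempty_iff_ne_empty.2 hW
      have : F G 0 W = ∅ := by
        rw [Finset.eq_empty_iff_forall_notMem]
        intro f hf
        rw [mem_F] at hf
        have := hf.1 x hx
        omega
      rw [this]
      simp
  | succ q ih =>
    rw [N_succ, Finset.card_eq_sum_card_fiberwise (t := ind G W)
      (f := fun f : V → ℕ => W.filter (fun x => f x = q + 1))]
    · push_cast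
      apply Finset.sum_congr rfl
      intro A hA
      rw [← ih (W \ A), card_fiber G q W A hA]
    · intro f hf
      have hf' := mem_F.1 (Finset.mem_coe.1 hf)
      rw [Finset.mem_coe, mem_ind]
      refine ⟨Finset.filter_subset _ _, fun x hx y hy hxy => ?_⟩
      rw [Finset.mem_filter] at hx hy
      exact hf'.2.2 x hx.1 y hy.1 hxy (hx.2.trans hy.2.symm)

/-- colourings as functions with values in `{1, …, q}` -/
noncomputable def colEquiv (G : SimpleGraph V) (q : ℕ) :
    G.Coloring (Fin q) ≃ {f : V → ℕ // f ∈ F G q Finset.univ} where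
  toFun C := ⟨fun x => (C x : ℕ) + 1, by
    rw [mem_F]
    refine ⟨fun x _ => ⟨by omega, (C x).2⟩, fun x hx => absurd (Finset.mem_univ x) hx,
      fun x _ y _ hxy h => ?_⟩
    exact C.valid hxy (Fin.ext (by omega))⟩
  invFun f := SimpleGraph.Coloring.mk (fun x => ⟨f.1 x - 1, by
      have := (mem_F.1 f.2).1 x (Finset.mem_univ x)
      omega⟩) (by
    intro x y hxy h
    have h1 := (mem_F.1 f.2).1 x (Finset.mem_univ x)
    have h2 := (mem_F.1 f.2).1 y (Finset.mem_univ y)
    have h3 := (mem_F.1 f.2).2.2 x (Finset.mem_univ x) y (Finset.mem_univ y) hxy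
    have h4 : f.1 x - 1 = f.1 y - 1 := congrArg Fin.val h
    omega)
  left_inv C := by
    ext x
    simp only [Nat.add_sub_cancel]
    rfl
  right_inv f := by
    apply Subtype.ext
    funext x
    have h1 := (mem_F.1 f.2).1 x (Finset.mem_univ x)
    show f.1 x - 1 + 1 = f.1 x
    omega

lemma card_coloring (G : SimpleGraph V) (q : ℕ) :
    (Nat.card (G.Coloring (Fin q)) : ℝ) = N G q Finset.univ := by
  rw [Nat.card_congr (colEquiv G q), Nat.card_eq_fintype_card, Fintype.card_coe, card_F]

/-- The clique bound: for a clique `K` with `k` vertices in a graph with `n` vertices and `q ≥ n`,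
`P(G, q - 1) ≤ (1 - k / q) (1 - 1 / q) ^ (n - k) P(G, q)`. -/
theorem main (G : SimpleGraph V) (K : Finset V) (hK : G.IsClique (K : Set V)) (q : ℕ)
    (hq : Fintype.card V ≤ q) :
    (Nat.card (G.Coloring (Fin (q - 1))) : ℝ) / (Nat.card (G.Coloring (Fin q)) : ℝ)
      ≤ (1 - (K.card : ℝ) / (q : ℝ)) * (1 - 1 / (q : ℝ)) ^ (Fintype.card V - K.card) := by
  have hpos : 0 < N G q Finset.univ := N_pos G (by rw [Finset.card_univ]; exact hq)
  rw [card_coloring, card_coloring, div_le_iff₀ hpos]
  rcases q with _ | q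
  · have hV : Fintype.card V = 0 := by omega
    have hK0 : K.card = 0 := by
      have := Finset.card_le_univ K
      omega
    simp [hK0, hV]
  · have h := ratio G q Finset.univ K (by rw [Finset.card_univ]; exact hq) (Finset.subset_univ K) hK
    rw [Finset.card_univ] at h
    simpa using h

end Pool.Agent.J4.H34.CQ
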