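import Pool.Agent.J4.H34.CQ.Bound

/-!
# The clique bound for the ratio of two consecutive values
-/

set_option autoImplicit false

namespace Pool.Agent.J4.H34.CQ

open Finset Classical

variable {V : Type*}

lemma N_indep (G : SimpleGraph V) (q : ℕ) {W : Finset V} (h : Ind G W) :
    N G q W = (q : ℝ) ^ W.card := by
  induction q generalizing W with
  | zero =>
    rw [N_zero]
    split_ifs with hW
    · simp [hW]
    · have : W.card ≠ 0 := by simpa using hW
      simp [this]
  | succ q ih =>
    rw [N_succ]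
    have h1 : ind G W = W.powerset := by
      ext A
      rw [mem_ind, Finset.mem_powerset]
      exact ⟨fun h => h.1, fun hA => ⟨hA, h.mono hA⟩⟩
    rw [h1]
    have h2 : ∀ A ∈ W.powerset, N G q (W \ A) = 1 ^ A.card * (q : ℝ) ^ (W.card - A.card) := by
      intro A hA
      rw [Finset.mem_powerset] at hA
      rw [ih (h.mono Finset.sdiff_subset), Finset.card_sdiff_of_subset hA]
      simp
    rw [Finset.sum_congr rfl h2, Finset.sum_pow_mul_eq_add_pow]
    push_cast
    ring

lemma N_one_of_not_ind (G : SimpleGraph V) {W : Finset V} (h : ¬ Ind G W) : N G 1 W = 0 := by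
  rw [N_succ]
  apply Finset.sum_eq_zero
  intro A hA
  rw [mem_ind] at hA
  rw [N_zero, if_neg]
  intro h1
  apply h
  exact hA.2.mono (Finset.sdiff_eq_empty_iff_subset.1 h1)

/-- the step of the induction -/
lemma step (G : SimpleGraph V) {m : ℕ} (hm : 1 ≤ m) {W K : Finset V} (hW : W.card ≤ m + 2)
    (hKW : K ⊆ W) (hK : G.IsClique (K : Set V)) (hne : K.Nonempty)
    (ih : ∀ W K : Finset V, W.card ≤ m + 1 → K ⊆ W → G.IsClique (K : Set V) →
      N G m W ≤ (1 - K.card / ((m : ℝ) + 1)) * (1 - 1 / ((m : ℝ) + 1)) ^ (W.card - K.card) *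
        N G (m + 1) W) :
    N G (m + 1) W ≤ (1 - K.card / ((m : ℝ) + 2)) * (1 - 1 / ((m : ℝ) + 2)) ^ (W.card - K.card) *
        N G (m + 2) W := by
  have hm' : (1 : ℝ) ≤ m := by exact_mod_cast hm
  have hkpos : 0 < K.card := Finset.card_pos.2 hne
  have hk1 : (1 : ℝ) ≤ K.card := by exact_mod_cast hkpos
  have hkm : (K.card : ℝ) ≤ m + 2 := by
    have := (Finset.card_le_card hKW).trans hW
    exact_mod_cast this
  set l := W.card - K.card with hl
  set z : ℝ := 1 - 1 / ((m : ℝ) + 1) with hz
  have hz' : z = m / (m + 1) := by rw [hz]; field_simp; ring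
  have hzpos : 0 < z := by rw [hz']; positivity
  set ε : ℝ := 1 / m with hε
  have hεpos : 0 ≤ ε := by rw [hε]; positivity
  have hzy : z * (1 + ε) = 1 := by rw [hz', hε]; field_simp
  -- every vertex of the clique
  have hx : ∀ x ∈ K, N G (m + 1) W
      ≤ ((m : ℝ) + 2 - K.card) * z ^ l * Q G (m + 1) W x (1 + ε) := by
    intro x hx
    rw [N_mem G m (hKW hx), Q, Finset.mul_sum, Finset.mul_sum]
    apply Finset.sum_le_sum
    intro A hA
    rw [Finset.mem_filter, mem_ind] at hA
    obtain ⟨⟨hAW, hAI⟩, hxA⟩ := hA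
    have hK' : G.IsClique ((K.erase x : Finset V) : Set V) := hK.subset (by simp)
    have hsub : K.erase x ⊆ W \ A := by
      intro w hw
      rw [Finset.mem_erase] at hw
      rw [Finset.mem_sdiff]
      exact ⟨hKW hw.2, fun hwA => hAI w hwA x hxA (hK hw.2 hx hw.1)⟩
    have hA1 : 1 ≤ A.card := Finset.card_pos.2 ⟨x, hxA⟩
    have hcA : (W \ A).card = W.card - A.card := Finset.card_sdiff_of_subset hAW
    have hcK : (K.erase x).card = K.card - 1 := Finset.card_erase_of_mem hx
    have hle := Finset.card_le_card hsub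
    rw [hcA, hcK] at hle
    have hAW' := Finset.card_le_card hAW
    have hKW' := Finset.card_le_card hKW
    have h1 := ih (W \ A) (K.erase x) (by omega) hsub hK'
    have hj : A.card - 1 ≤ l := by omega
    have hexp : (W \ A).card - (K.erase x).card = l - (A.card - 1) := by omega
    rw [hexp] at h1
    have hcK' : ((K.erase x).card : ℝ) = K.card - 1 := by
      rw [hcK, Nat.cast_sub hkpos]; simp
    rw [hcK'] at h1
    have hpow : z ^ (l - (A.card - 1)) = z ^ l * (1 + ε) ^ (A.card - 1) := by
      have : z ^ l = z ^ (l - (A.card - 1)) * z ^ (A.card - 1) := by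
        rw [← pow_add, Nat.sub_add_cancel hj]
      rw [this, mul_assoc, ← mul_pow, hzy, one_pow, mul_one]
    rw [hpow] at h1
    calc ((m : ℝ) + 1) * N G m (W \ A)
        ≤ ((m : ℝ) + 1) * ((1 - (K.card - 1) / ((m : ℝ) + 1)) *
            (z ^ l * (1 + ε) ^ (A.card - 1)) * N G (m + 1) (W \ A)) :=
          mul_le_mul_of_nonneg_left h1 (by positivity)
      _ = _ := by field_simp; ring
  have hsum : (K.card : ℝ) * N G (m + 1) W
      ≤ ((m : ℝ) + 2 - K.card) * z ^ l * ∑ x ∈ K, Q G (m + 1) W x (1 + ε) := by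
    rw [Finset.mul_sum, ← nsmul_eq_mul, ← Finset.sum_const]
    exact Finset.sum_le_sum hx
  have hcb := clique_bound G (m := m + 1) (W := W) (K := K) (ε := ε) (by omega) hKW hK hεpos
    (by rw [hε]; push_cast; field_simp; linarith)
  push_cast at hcb
  rw [← hl] at hcb
  have hτ : z * (1 + ε / ((m : ℝ) + 1 + 1)) = 1 - 1 / ((m : ℝ) + 2) := by
    rw [hz', hε]; field_simp; ring
  have hc0 : 0 ≤ ((m : ℝ) + 2 - K.card) * z ^ l :=
    mul_nonneg (by linarith) (by positivity)
  have h2 : (K.card : ℝ) * N G (m + 1) W * ((m : ℝ) + 2)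
      ≤ (K.card : ℝ) * (((m : ℝ) + 2 - K.card) * (1 - 1 / ((m : ℝ) + 2)) ^ l * N G (m + 2) W) := by
    calc (K.card : ℝ) * N G (m + 1) W * ((m : ℝ) + 2)
        ≤ (((m : ℝ) + 2 - K.card) * z ^ l * ∑ x ∈ K, Q G (m + 1) W x (1 + ε)) * ((m : ℝ) + 2) :=
          mul_le_mul_of_nonneg_right hsum (by positivity)
      _ = ((m : ℝ) + 2 - K.card) * z ^ l *
            (((m : ℝ) + 1 + 1) * ∑ x ∈ K, Q G (m + 1) W x (1 + ε)) := by ring
      _ ≤ ((m : ℝ) + 2 - K.card) * z ^ l *
            (K.card * (1 + ε / ((m : ℝ) + 1 + 1)) ^ l * N G (m + 1 + 1) W) :=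
          mul_le_mul_of_nonneg_left hcb hc0
      _ = (K.card : ℝ) * (((m : ℝ) + 2 - K.card) * (z * (1 + ε / ((m : ℝ) + 1 + 1))) ^ l
            * N G (m + 2) W) := by rw [mul_pow]; ring
      _ = _ := by rw [hτ]
  have h3 : N G (m + 1) W * ((m : ℝ) + 2)
      ≤ ((m : ℝ) + 2 - K.card) * (1 - 1 / ((m : ℝ) + 2)) ^ l * N G (m + 2) W := by
    have h4 : (K.card : ℝ) * (N G (m + 1) W * ((m : ℝ) + 2))
        ≤ (K.card : ℝ) * (((m : ℝ) + 2 - K.card) * (1 - 1 / ((m : ℝ) + 2)) ^ l *
          N G (m + 2) W) := by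
      rw [← mul_assoc]; exact h2
    exact le_of_mul_le_mul_left h4 (by linarith)
  have hm2 : (0 : ℝ) < m + 2 := by positivity
  have h5 : (1 - K.card / ((m : ℝ) + 2)) = ((m : ℝ) + 2 - K.card) / ((m : ℝ) + 2) := by
    field_simp
  rw [h5, div_mul_eq_mul_div, div_mul_eq_mul_div, le_div_iff₀ hm2]
  exact h3

theorem ratio (G : SimpleGraph V) (q : ℕ) : ∀ W K : Finset V, W.card ≤ q + 1 → K ⊆ W →
    G.IsClique (K : Set V) →
    N G q W ≤ (1 - K.card / ((q : ℝ) + 1)) * (1 - 1 / ((q : ℝ) + 1)) ^ (W.card - K.card) *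
      N G (q + 1) W := by
  induction q with
  | zero =>
    intro W K hW hKW hK
    rcases W.eq_empty_or_nonempty with rfl | hne
    · have : K = ∅ := Finset.subset_empty.1 hKW
      subst this
      have h1 := N_indep G 0 (W := ∅) (by intro x hx; simp at hx)
      have h2 := N_indep G (0 + 1) (W := ∅) (by intro x hx; simp at hx)
      rw [h1, h2]
      simp
    · have hc : W.card = 1 := le_antisymm (by simpa using hW) (Finset.card_pos.2 hne)
      have h0 : N G 0 W = 0 := by rw [N_zero, if_neg hne.ne_empty]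
      rw [h0]
      have hk : K.card ≤ 1 := hc ▸ Finset.card_le_card hKW
      interval_cases hkc : K.card
      · simp [hc]
      · simp
  | succ q ih =>
    -- a nonempty clique
    have key : ∀ W K : Finset V, W.card ≤ q + 1 + 1 → K ⊆ W → G.IsClique (K : Set V) →
        K.Nonempty → N G (q + 1) W ≤ (1 - K.card / ((q : ℝ) + 2)) *
          (1 - 1 / ((q : ℝ) + 2)) ^ (W.card - K.card) * N G (q + 2) W := by
      intro W K hW hKW hK hne
      rcases Nat.eq_zero_or_pos q with rfl | hq
      · by_cases hI : Ind G W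
        · have hk : K.card = 1 := by
            obtain ⟨x, hx⟩ := hne
            rw [Finset.card_eq_one]
            refine ⟨x, ?_⟩
            rw [Finset.eq_singleton_iff_unique_mem]
            refine ⟨hx, fun w hw => ?_⟩
            by_contra hwx
            exact hI w (hKW hw) x (hKW hx) (hK hw hx hwx)
          have h1 := N_indep G (0 + 1) hI
          have h2 := N_indep G (0 + 2) hI
          rw [h1, h2, hk]
          have hWc : 1 ≤ W.card := by
            have := Finset.card_le_card hKW
            omega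
          obtain ⟨j, hj⟩ : ∃ j, W.card = j + 1 := ⟨W.card - 1, by omega⟩
          rw [hj]
          simp only [Nat.add_sub_cancel]
          have h3 : (1 - ((1 : ℕ) : ℝ) / (((0 : ℕ) : ℝ) + 2)) = 1 / 2 := by norm_num
          have h4 : (1 - 1 / (((0 : ℕ) : ℝ) + 2)) = 1 / 2 := by norm_num
          rw [h3, h4]
          have h5 : (1 / 2 : ℝ) * (1 / 2) ^ j * ((0 + 2 : ℕ) : ℝ) ^ (j + 1) = 1 := by
            rw [← pow_succ', ← mul_pow]
            norm_num
          rw [h5]
          simp
        · rw [N_one_of_not_ind G hI]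
          have hk : (K.card : ℝ) ≤ 2 := by
            have := (Finset.card_le_card hKW).trans hW
            exact_mod_cast this
          apply mul_nonneg (mul_nonneg _ _) (N_nonneg _ _ _)
          · have : (K.card : ℝ) / (((0 : ℕ) : ℝ) + 2) ≤ 1 := by
              rw [div_le_one (by norm_num)]
              simpa using hk
            linarith
          · apply pow_nonneg
            norm_num
      · exact step G hq hW hKW hK hne ih
    intro W K hW hKW hK
    have hc : ((q + 1 : ℕ) : ℝ) + 1 = (q : ℝ) + 2 := by push_cast; ring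
    rw [hc]
    rcases K.eq_empty_or_nonempty with rfl | hne
    · rcases W.eq_empty_or_nonempty with rfl | ⟨x, hx⟩
      · have h1 := N_indep G (q + 1) (W := ∅) (by intro x hx; simp at hx)
        have h2 := N_indep G (q + 1 + 1) (W := ∅) (by intro x hx; simp at hx)
        rw [h1, h2]
        simp
      · have h1 := key W {x} hW (by simpa using hx) (by simp) ⟨x, by simp⟩
        refine h1.trans (le_of_eq ?_)
        have hWc : 1 ≤ W.card := Finset.card_pos.2 ⟨x, hx⟩
        obtain ⟨j, hj⟩ : ∃ j, W.card = j + 1 := ⟨W.card - 1, by omega⟩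
        rw [hj]
        simp only [Finset.card_singleton, Nat.add_sub_cancel, Nat.cast_one, Finset.card_empty,
          Nat.cast_zero, zero_div, sub_zero, one_mul, Nat.sub_zero]
        rw [pow_succ]
        ring
    · exact key W K hW hKW hK hne

end Pool.Agent.J4.H34.CQ
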