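import Pool.Agent.J4.H34.CQ.Erase

/-!
# Exchanging the colour of a vertex of a clique with a colour not used on the clique
-/

set_option autoImplicit false

namespace Pool.Agent.J4.H34.CQ

open Finset Classical

variable {V : Type*}

/-- the colourings in which the clique vertex `z` has the last colour but one ... -/
lemma swap_R (G : SimpleGraph V) (m : ℕ) {W K : Finset V} {z : V} (hK : G.IsClique (K : Set V))
    (hKW : K ⊆ W) (hz : z ∈ K) (y : ℝ) :
    ((m : ℝ) + 2 - K.card) * Q G (m + 1) W z y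
      = ∑ B ∈ (ind G W).filter (fun B => Disjoint B K), (m + 1) * Q G m (W \ B) z y := by
  have h1 : ∀ A ∈ (ind G W).filter (fun A => z ∈ A),
      ((m : ℝ) + 2 - K.card) * (y ^ (A.card - 1) * N G (m + 1) (W \ A))
        = ∑ B ∈ (ind G (W \ A)).filter (fun B => Disjoint B K),
          (m + 1) * (y ^ (A.card - 1) * N G m ((W \ A) \ B)) := by
    intro A hA
    rw [Finset.mem_filter, mem_ind] at hA
    obtain ⟨⟨hAW, hAI⟩, hzA⟩ := hA
    have hK' : G.IsClique ((K.erase z : Finset V) : Set V) :=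
      hK.subset (by simp)
    have hsub : K.erase z ⊆ W \ A := by
      intro x hx
      rw [Finset.mem_erase] at hx
      rw [Finset.mem_sdiff]
      refine ⟨hKW hx.2, fun hxA => ?_⟩
      exact hAI x hxA z hzA (hK hx.2 hz hx.1)
    have h2 := sum_avoid G m hK' hsub
    have h3 : (ind G (W \ A)).filter (fun B => Disjoint B (K.erase z))
        = (ind G (W \ A)).filter (fun B => Disjoint B K) := by
      apply Finset.filter_congr
      intro B hB
      rw [mem_ind] at hB
      constructor
      · intro h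
        rw [Finset.disjoint_left] at h ⊢
        intro x hxB hxK
        apply h hxB
        rw [Finset.mem_erase]
        refine ⟨?_, hxK⟩
        rintro rfl
        exact (Finset.mem_sdiff.1 (hB.1 hxB)).2 hzA
      · intro h
        exact h.mono_right (Finset.erase_subset z K)
    rw [h3] at h2
    have hc : ((K.erase z).card : ℝ) = K.card - 1 := by
      rw [Finset.card_erase_of_mem hz, Nat.cast_sub (Finset.card_pos.2 ⟨z, hz⟩)]
      simp
    rw [hc] at h2
    have h4 : ((m : ℝ) + 2 - K.card) * N G (m + 1) (W \ A)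
        = (m + 1) * ∑ B ∈ (ind G (W \ A)).filter (fun B => Disjoint B K), N G m ((W \ A) \ B) := by
      rw [h2]; ring
    calc ((m : ℝ) + 2 - K.card) * (y ^ (A.card - 1) * N G (m + 1) (W \ A))
        = y ^ (A.card - 1) * (((m : ℝ) + 2 - K.card) * N G (m + 1) (W \ A)) := by ring
      _ = _ := by
        rw [h4, Finset.mul_sum, Finset.mul_sum]
        apply Finset.sum_congr rfl
        intro B _
        ring
  rw [Q, Finset.mul_sum, Finset.sum_congr rfl h1, sum_swap]
  apply Finset.sum_congr rfl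
  intro B _
  rw [Q, Finset.mul_sum]
  apply Finset.sum_congr rfl
  intro A _
  rw [sdiff_right_comm]

lemma swap_eq (G : SimpleGraph V) (m : ℕ) {W K : Finset V} {z : V} (hK : G.IsClique (K : Set V))
    (hKW : K ⊆ W) (hz : z ∈ K) (y : ℝ) :
    ∑ B ∈ ((ind G W).filter (fun B => Disjoint B K)).filter (fun B => ¬ nb G z B),
        y ^ B.card * N G (m + 1) (W \ B)
      = ∑ B ∈ ((ind G W).filter (fun B => Disjoint B K)).filter (fun B => ¬ nb G z B),
        (m + 1) * Q G m (W \ B) z y := by
  set J := ((ind G W).filter (fun B => Disjoint B K)).filter (fun B => ¬ nb G z B) with hJ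
  have hmemJ : ∀ B, B ∈ J ↔ ((B ⊆ W ∧ Ind G B) ∧ Disjoint B K) ∧ ¬ nb G z B := by
    intro B
    rw [hJ, Finset.mem_filter, Finset.mem_filter, mem_ind]
  have hset : ∀ B ∈ J, (ind G ((W \ B).erase z)).filter (fun A => ¬ nb G z A)
      = J.filter (fun A => Disjoint A B) := by
    intro B hB
    ext A
    rw [Finset.mem_filter, Finset.mem_filter, mem_ind, hmemJ]
    constructor
    · rintro ⟨⟨h1, h2⟩, h3⟩
      refine ⟨⟨⟨⟨?_, h2⟩, ?_⟩, h3⟩, ?_⟩
      · intro x hx
        exact (Finset.mem_sdiff.1 (Finset.mem_of_mem_erase (h1 hx))).1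
      · rw [Finset.disjoint_left]
        intro x hxA hxK
        have hxz : x ≠ z := by
          rintro rfl
          exact Finset.notMem_erase x (W \ B) (h1 hxA)
        exact h3 ⟨x, hxA, hK hz hxK hxz.symm⟩
      · rw [Finset.disjoint_left]
        intro x hxA hxB
        exact (Finset.mem_sdiff.1 (Finset.mem_of_mem_erase (h1 hxA))).2 hxB
    · rintro ⟨⟨⟨⟨h1, h2⟩, h3⟩, h4⟩, h5⟩
      refine ⟨⟨?_, h2⟩, h4⟩
      intro x hx
      rw [Finset.mem_erase, Finset.mem_sdiff]
      refine ⟨?_, h1 hx, Finset.disjoint_left.1 h5 hx⟩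
      rintro rfl
      exact Finset.disjoint_left.1 h3 hx hz
  have hzB : ∀ B ∈ J, z ∈ W \ B := by
    intro B hB
    rw [hmemJ] at hB
    rw [Finset.mem_sdiff]
    exact ⟨hKW hz, fun h => Finset.disjoint_left.1 hB.1.2 h hz⟩
  have hL : ∀ B ∈ J, y ^ B.card * N G (m + 1) (W \ B)
      = ∑ A ∈ J.filter (fun A => Disjoint A B),
        (m + 1) * (y ^ B.card * N G m (((W \ B).erase z) \ A)) := by
    intro B hB
    rw [N_eq_Q G m (hzB B hB), Q_erase G m (hzB B hB), hset B hB, Finset.mul_sum, Finset.mul_sum]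
    apply Finset.sum_congr rfl
    intro A _
    rw [one_pow]
    ring
  have hR : ∀ B ∈ J, (m + 1 : ℝ) * Q G m (W \ B) z y
      = ∑ A ∈ J.filter (fun A => Disjoint A B),
        (m + 1) * (y ^ A.card * N G m (((W \ B).erase z) \ A)) := by
    intro B hB
    rw [Q_erase G m (hzB B hB), hset B hB, Finset.mul_sum]
  rw [Finset.sum_congr rfl hL, Finset.sum_congr rfl hR]
  rw [Finset.sum_comm' (s' := fun A => J.filter (fun B => Disjoint B A)) (t' := J)]
  · apply Finset.sum_congr rfl
    intro A _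
    apply Finset.sum_congr rfl
    intro B _
    congr 3
    ext x
    simp only [Finset.mem_sdiff, Finset.mem_erase]
    tauto
  · intro B A
    simp only [Finset.mem_filter]
    constructor
    · rintro ⟨h1, h2, h3⟩; exact ⟨⟨h1, h3.symm⟩, h2⟩
    · rintro ⟨⟨h1, h3⟩, h2⟩; exact ⟨h1, h2, h3.symm⟩

/-- the mean of `y ^ |A|` over the classes of the colours not used on the clique is at least the mean of
`y ^ (|A| - 1)` for the class of a vertex of the clique -/
lemma swap_le (G : SimpleGraph V) (m : ℕ) {W K : Finset V} {z : V} (hK : G.IsClique (K : Set V))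
    (hKW : K ⊆ W) (hz : z ∈ K) {y : ℝ} (hy : 1 ≤ y)
    (h : ∀ B ∈ ind G W, Disjoint B K → nb G z B →
      (m + 1) * Q G m (W \ B) z y ≤ y * N G (m + 1) (W \ B)) :
    ((m : ℝ) + 2 - K.card) * Q G (m + 1) W z y ≤ PU G (m + 1) W K y := by
  rw [swap_R G m hK hKW hz, PU,
    ← Finset.sum_filter_add_sum_filter_not ((ind G W).filter (fun B => Disjoint B K))
      (fun B => nb G z B),
    ← Finset.sum_filter_add_sum_filter_not ((ind G W).filter (fun B => Disjoint B K))
      (fun B => nb G z B) (fun B => y ^ B.card * N G (m + 1) (W \ B)),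
    swap_eq G m hK hKW hz]
  apply add_le_add_left
  apply Finset.sum_le_sum
  intro B hB
  rw [Finset.mem_filter, Finset.mem_filter] at hB
  obtain ⟨⟨h1, h2⟩, h3⟩ := hB
  refine (h B h1 h2 h3).trans ?_
  apply mul_le_mul_of_nonneg_right _ (N_nonneg _ _ _)
  obtain ⟨x, hx, _⟩ := h3
  exact le_self_pow₀ hy (Finset.card_pos.2 ⟨x, hx⟩).ne'

end Pool.Agent.J4.H34.CQ
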